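import Mathlib

set_option autoImplicit false

namespace Pool.Agent.Results.MP_7e7ec7_co.TotalDisplacementPA

open Finset Equiv

/-- A family `A` of permutations of `{0, ..., n-1}` (a permutation `a` is the tuple
`(a 0, ..., a (n-1))`, so that `pos (a, i) = a.symm i`) is a strong up-set if, whenever `a ∈ A`
and `{i, j}` with `i < j` is an inversion of `a`, i.e. `pos (a, i) > pos (a, j)`, the permutation
obtained from `a` by exchanging the entries `i` and `j` also lies in `A`. -/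
def IsStrongUpSet {n : ℕ} (A : Set (Perm (Fin n))) : Prop :=
  ∀ a ∈ A, ∀ i j : Fin n, i < j → a.symm j < a.symm i → swap i j * a ∈ A

/-- The total displacement `D (a) = ∑ i, |i - pos (a, i)|`. -/
def totalDisplacement {n : ℕ} (a : Perm (Fin n)) : ℕ :=
  ∑ i : Fin n, ((i : ℤ) - (a.symm i : ℤ)).natAbs

/-- The probability mass function `μ_{n,q} (a) = q ^ D (a) / ∑ b, q ^ D (b)`. -/
noncomputable def mu (n : ℕ) (q : ℝ) (a : Perm (Fin n)) : ℝ :=
  q ^ totalDisplacement a / ∑ b : Perm (Fin n), q ^ totalDisplacement b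

open Classical in
/-- The measure of the family `A` under the probability mass function `m`. -/
noncomputable def prob {n : ℕ} (m : Perm (Fin n) → ℝ) (A : Set (Perm (Fin n))) : ℝ :=
  ∑ a ∈ Finset.univ.filter (fun a => a ∈ A), m a

/-- Positive association: `m (A ∩ B) ≥ m (A) * m (B)` for all strong up-sets `A`, `B`. -/
def PositivelyAssociated {n : ℕ} (m : Perm (Fin n) → ℝ) : Prop :=
  ∀ A B : Set (Perm (Fin n)), IsStrongUpSet A → IsStrongUpSet B →
    prob m A * prob m B ≤ prob m (A ∩ B)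

/-! ### The proof -/

/-- monotone under exchanges inside `C`. -/
def MonoOn {n : ℕ} (C : Finset (Perm (Fin n))) (f : Perm (Fin n) → ℝ) : Prop :=
  ∀ σ ∈ C, ∀ i j : Fin n, i < j → σ i < σ j → σ * swap i j ∈ C → f (σ * swap i j) ≤ f σ

def PA {n : ℕ} (w : Perm (Fin n) → ℝ) (C : Finset (Perm (Fin n))) : Prop :=
  ∀ f g : Perm (Fin n) → ℝ, MonoOn C f → MonoOn C g →
    (∑ σ ∈ C, w σ * f σ) * (∑ σ ∈ C, w σ * g σ) ≤
      (∑ σ ∈ C, w σ * (f σ * g σ)) * ∑ σ ∈ C, w σ

lemma MonoOn.subset {n : ℕ} {C X : Finset (Perm (Fin n))} {f : Perm (Fin n) → ℝ}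
    (h : MonoOn C f) (hX : X ⊆ C) : MonoOn X f :=
  fun σ hσ i j hij hlt hm => h σ (hX hσ) i j hij hlt (hX hm)

lemma PA_empty {n : ℕ} (w : Perm (Fin n) → ℝ) : PA w ∅ := by
  intro f g _ _; simp

lemma PA_singleton {n : ℕ} (w : Perm (Fin n) → ℝ) (τ : Perm (Fin n)) : PA w {τ} := by
  intro f g _ _
  simp only [Finset.sum_singleton]
  apply le_of_eq; ring

/-- mixture of two ordered positively associated classes -/
lemma mix (x y xf yf xg yg xfg yfg : ℝ) (hx : 0 < x) (hy : 0 < y)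
    (h1 : xf * xg ≤ xfg * x) (h2 : yf * yg ≤ yfg * y)
    (h3 : yf * x ≤ xf * y) (h4 : yg * x ≤ xg * y) :
    (xf + yf) * (xg + yg) ≤ (xfg + yfg) * (x + y) := by
  have h1' : xf * xg / x ≤ xfg := by rwa [div_le_iff₀ hx]
  have h2' : yf * yg / y ≤ yfg := by rwa [div_le_iff₀ hy]
  have hxy : 0 < x + y := by positivity
  have h5 : 0 ≤ (xf * y - yf * x) * (xg * y - yg * x) / (x * y) := by
    apply div_nonneg
    · apply mul_nonneg <;> linarith
    · positivity
  have h6 : (xf * xg / x + yf * yg / y) * (x + y) - (xf + yf) * (xg + yg)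
      = (xf * y - yf * x) * (xg * y - yg * x) / (x * y) := by
    field_simp
    ring
  have h7 : (xf * xg / x + yf * yg / y) * (x + y) ≤ (xfg + yfg) * (x + y) :=
    mul_le_mul_of_nonneg_right (by linarith) hxy.le
  linarith

lemma PA_union {n : ℕ} {w : Perm (Fin n) → ℝ} (hw : ∀ σ, 0 < w σ)
    {X Y : Finset (Perm (Fin n))} (hd : Disjoint X Y) (hX : PA w X) (hY : PA w Y)
    (hdom : ∀ f, MonoOn (X ∪ Y) f →
      (∑ σ ∈ Y, w σ * f σ) * (∑ σ ∈ X, w σ) ≤ (∑ σ ∈ X, w σ * f σ) * (∑ σ ∈ Y, w σ)) :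
    PA w (X ∪ Y) := by
  rcases X.eq_empty_or_nonempty with rfl | hXn
  · simpa using hY
  rcases Y.eq_empty_or_nonempty with rfl | hYn
  · simpa using hX
  intro f g hf hg
  rw [Finset.sum_union hd, Finset.sum_union hd, Finset.sum_union hd, Finset.sum_union hd]
  apply mix
  · exact Finset.sum_pos (fun σ _ => hw σ) hXn
  · exact Finset.sum_pos (fun σ _ => hw σ) hYn
  · exact hX f g (hf.subset Finset.subset_union_left) (hg.subset Finset.subset_union_left)
  · exact hY f g (hf.subset Finset.subset_union_right) (hg.subset Finset.subset_union_right)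
  · exact hdom f hf
  · exact hdom g hg

/-- effect of a position exchange on a sum along the graph of a permutation -/
lemma sum_swap {n : ℕ} {M : Type*} [AddCommGroup M] (F : Fin n → Fin n → M) (σ : Perm (Fin n))
    (s : Finset (Fin n)) {i j : Fin n} (hi : i ∈ s) (hj : j ∈ s) (hij : i ≠ j) :
    ∑ k ∈ s, F k ((σ * swap i j) k) =
      ∑ k ∈ s, F k (σ k) + (F i (σ j) + F j (σ i) - F i (σ i) - F j (σ j)) := by
  have h : ∑ k ∈ s, (F k ((σ * swap i j) k) - F k (σ k)) =
      ∑ k ∈ ({i, j} : Finset (Fin n)), (F k ((σ * swap i j) k) - F k (σ k)) := by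
    symm
    apply Finset.sum_subset
    · intro k hk
      simp only [Finset.mem_insert, Finset.mem_singleton] at hk
      rcases hk with rfl | rfl <;> assumption
    · intro k _ hk
      simp only [Finset.mem_insert, Finset.mem_singleton, not_or] at hk
      simp [Perm.mul_apply, swap_apply_of_ne_of_ne hk.1 hk.2]
  rw [Finset.sum_sub_distrib, Finset.sum_pair hij] at h
  simp only [Perm.mul_apply, swap_apply_left, swap_apply_right] at h
  simp only [Perm.mul_apply]
  rw [sub_eq_iff_eq_add] at h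
  rw [h]
  abel

/-- the distance of a position and a value -/
def d {n : ℕ} (k v : Fin n) : ℕ := ((k : ℤ) - (v : ℤ)).natAbs

/-- the weight -/
noncomputable def wt {n : ℕ} (q : ℝ) (σ : Perm (Fin n)) : ℝ := q ^ (∑ k, d k (σ k))

lemma totalDisplacement_eq {n : ℕ} (a : Perm (Fin n)) :
    totalDisplacement a = ∑ k, d k (a k) := by
  unfold totalDisplacement
  rw [← Equiv.sum_comp a (fun i : Fin n => ((i : ℤ) - (a.symm i : ℤ)).natAbs)]
  apply Finset.sum_congr rfl
  intro k _
  simp only [Equiv.symm_apply_apply, d]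
  omega

lemma wt_swap {n : ℕ} (q : ℝ) (σ : Perm (Fin n)) {i j : Fin n} (hij : i < j) (hlt : σ i < σ j) :
    wt q (σ * swap i j) = wt q σ * q ^ (2 * (min (j : ℕ) (σ j : ℕ) - max (i : ℕ) (σ i : ℕ))) := by
  unfold wt
  rw [← pow_add]
  congr 1
  have h := sum_swap (fun k v : Fin n => (d k v : ℤ)) σ Finset.univ (Finset.mem_univ i)
    (Finset.mem_univ j) hij.ne
  have h2 : ((∑ k, d k ((σ * swap i j) k) : ℕ) : ℤ) =
      ((∑ k, d k (σ k) + 2 * (min (j : ℕ) (σ j : ℕ) - max (i : ℕ) (σ i : ℕ)) : ℕ) : ℤ) := by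
    rw [Nat.cast_add, Nat.cast_sum, Nat.cast_sum, h]
    congr 1
    have h3 : (i : ℕ) < j := hij
    have h4 : (σ i : ℕ) < σ j := hlt
    simp only [d]
    omega
  exact_mod_cast h2

/-- prefix classes -/
def E {n : ℕ} (τ : Perm (Fin n)) (i : ℕ) : Finset (Perm (Fin n)) :=
  Finset.univ.filter (fun σ => ∀ j : Fin n, (j : ℕ) < i → σ j = τ j)

def X {n : ℕ} (τ : Perm (Fin n)) (i : Fin n) (v : Fin n) : Finset (Perm (Fin n)) :=
  (E τ i).filter (fun σ => σ i = v)

def C {n : ℕ} (τ : Perm (Fin n)) (i : Fin n) (v : ℕ) : Finset (Perm (Fin n)) :=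
  (E τ i).filter (fun σ => v ≤ (σ i : ℕ))

lemma mem_E {n : ℕ} {τ : Perm (Fin n)} {i : ℕ} {σ : Perm (Fin n)} :
    σ ∈ E τ i ↔ ∀ j : Fin n, (j : ℕ) < i → σ j = τ j := by
  simp [E]

lemma mem_X {n : ℕ} {τ : Perm (Fin n)} {i v : Fin n} {σ : Perm (Fin n)} :
    σ ∈ X τ i v ↔ (∀ j : Fin n, j < i → σ j = τ j) ∧ σ i = v := by
  simp [X, E]

lemma mem_C {n : ℕ} {τ : Perm (Fin n)} {i : Fin n} {v : ℕ} {σ : Perm (Fin n)} :
    σ ∈ C τ i v ↔ (∀ j : Fin n, j < i → σ j = τ j) ∧ v ≤ (σ i : ℕ) := by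
  simp [C, E]

/-- the local ratio -/
noncomputable def rat {n : ℕ} (q : ℝ) (i v : Fin n) (k u : Fin n) : ℝ :=
  if v < u then q ^ (2 * (min (k : ℕ) (u : ℕ) - max (i : ℕ) (v : ℕ))) else 0

/-- the tilt -/
noncomputable def S {n : ℕ} (q : ℝ) (i v : Fin n) (σ : Perm (Fin n)) : ℝ :=
  ∑ k ∈ Finset.Ioi i, rat q i v k (σ k)

lemma rat_submod {n : ℕ} {q : ℝ} (hq0 : 0 < q) (hq1 : q ≤ 1) (i v : Fin n) {k l a b : Fin n}
    (hkl : k < l) (hab : a < b) :
    rat q i v k a + rat q i v l b ≤ rat q i v k b + rat q i v l a := by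
  have hk : (k : ℕ) < l := hkl
  have ha : (a : ℕ) < b := hab
  unfold rat
  have mono : ∀ x y : ℕ, x ≤ y → q ^ (2 * (y - max (i : ℕ) (v : ℕ))) ≤
      q ^ (2 * (x - max (i : ℕ) (v : ℕ))) := by
    intro x y hxy
    apply pow_le_pow_of_le_one hq0.le hq1
    omega
  by_cases h1 : v < a
  · have h2 : v < b := h1.trans hab
    simp only [h1, h2, if_true]
    rcases le_total (k : ℕ) (a : ℕ) with h | h
    · have e1 : min (k : ℕ) (a : ℕ) = min (k : ℕ) (b : ℕ) := by omega
      have e2 : min (l : ℕ) (a : ℕ) ≤ min (l : ℕ) (b : ℕ) := by omega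
      rw [e1]
      linarith [mono _ _ e2]
    · have e1 : min (k : ℕ) (a : ℕ) = min (l : ℕ) (a : ℕ) := by omega
      have e2 : min (k : ℕ) (b : ℕ) ≤ min (l : ℕ) (b : ℕ) := by omega
      rw [e1]
      linarith [mono _ _ e2]
  · by_cases h2 : v < b
    · simp only [h1, h2, if_true, if_false]
      have e2 : min (k : ℕ) (b : ℕ) ≤ min (l : ℕ) (b : ℕ) := by omega
      linarith [mono _ _ e2]
    · simp [h1, h2]

lemma S_anti {n : ℕ} {q : ℝ} (hq0 : 0 < q) (hq1 : q ≤ 1) (τ : Perm (Fin n)) (i v : Fin n) :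
    MonoOn (X τ i v) (fun σ => - S q i v σ) := by
  intro σ hσ k l hkl hlt hm
  rw [mem_X] at hσ hm
  have hik : i < k := by
    by_contra hcon
    rcases lt_or_eq_of_le (not_lt.mp hcon) with h | h
    · have h1 := hσ.1 k h
      have h2 := hm.1 k h
      rw [Perm.mul_apply, swap_apply_left] at h2
      rw [h1, h2] at hlt
      exact lt_irrefl _ hlt
    · subst h
      have h2 := hm.2
      rw [Perm.mul_apply, swap_apply_left] at h2
      rw [hσ.2, h2] at hlt
      exact lt_irrefl _ hlt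
  have hil : i < l := hik.trans hkl
  have h := sum_swap (fun k u : Fin n => rat q i v k u) σ (Finset.Ioi i)
    (Finset.mem_Ioi.mpr hik) (Finset.mem_Ioi.mpr hil) hkl.ne
  have h2 := rat_submod hq0 hq1 i v hkl hlt
  simp only [S]
  rw [h]
  linarith

/-- The sum over the class `C τ i (v+1)`, rewritten by means of exchanges. -/
lemma sum_Y {n : ℕ} (τ : Perm (Fin n)) (i v : Fin n) (hX : (X τ i v).Nonempty)
    (F : Perm (Fin n) → ℝ) :
    ∑ σ ∈ C τ i (v + 1), F σ =
      ∑ σ ∈ X τ i v, ∑ k ∈ (Finset.Ioi i).filter (fun k => v < σ k), F (σ * swap i k) := by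
  obtain ⟨ρ, hρ⟩ := hX
  rw [mem_X] at hρ
  -- `v` is not used by the first positions
  have hv : ∀ σ ∈ C τ i (v + 1), i < σ.symm v := by
    intro σ hσ
    rw [mem_C] at hσ
    by_contra hcon
    rcases lt_or_eq_of_le (not_lt.mp hcon) with h | h
    · have h1 := hσ.1 _ h
      rw [Equiv.apply_symm_apply] at h1
      have h2 := hρ.1 _ h
      have h3 := ρ.injective ((h2.trans h1.symm).trans hρ.2.symm)
      exact absurd h3 h.ne
    · have h1 : σ i = v := by rw [← h, Equiv.apply_symm_apply]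
      have h2 := hσ.2
      rw [h1] at h2
      omega
  rw [Finset.sum_sigma']
  symm
  apply Finset.sum_bij' (fun (x : (_ : Perm (Fin n)) × Fin n) _ => x.1 * swap i x.2)
    (fun σ _ => ⟨σ * swap i (σ.symm v), σ.symm v⟩)
  · rintro ⟨σ, k⟩ hx
    simp only [Finset.mem_sigma, Finset.mem_filter, Finset.mem_Ioi] at hx
    obtain ⟨h1, h2, h3⟩ := hx
    rw [mem_X] at h1
    rw [mem_C]
    refine ⟨fun j hj => ?_, ?_⟩
    · simp only [Perm.mul_apply]
      rw [swap_apply_of_ne_of_ne hj.ne (hj.trans h2).ne]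
      exact h1.1 j hj
    · simp only [Perm.mul_apply, swap_apply_left]
      exact h3
  · intro σ hσ
    have hk := hv σ hσ
    rw [mem_C] at hσ
    simp only [Finset.mem_sigma, Finset.mem_filter, Finset.mem_Ioi]
    refine ⟨?_, hk, ?_⟩
    · rw [mem_X]
      refine ⟨fun j hj => ?_, ?_⟩
      · simp only [Perm.mul_apply]
        rw [swap_apply_of_ne_of_ne hj.ne (hj.trans hk).ne]
        exact hσ.1 j hj
      · simp only [Perm.mul_apply, swap_apply_left, Equiv.apply_symm_apply]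
    · simp only [Perm.mul_apply, swap_apply_right]
      exact hσ.2
  · rintro ⟨σ, k⟩ hx
    simp only [Finset.mem_sigma, Finset.mem_filter, Finset.mem_Ioi] at hx
    obtain ⟨h1, h2, h3⟩ := hx
    rw [mem_X] at h1
    have hs : (σ * swap i k).symm v = k := by
      rw [Equiv.symm_apply_eq]
      simp [Perm.mul_apply, h1.2]
    simp only [hs]
    congr 1
    rw [mul_assoc, swap_mul_self, mul_one]
  · intro σ hσ
    simp only
    rw [mul_assoc, swap_mul_self, mul_one]
  · rintro ⟨σ, k⟩ _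
    rfl

lemma dom {n : ℕ} {q : ℝ} (hq0 : 0 < q) (hq1 : q ≤ 1) (τ : Perm (Fin n)) (i v : Fin n)
    (hX : (X τ i v).Nonempty) (hPA : PA (wt q) (X τ i v)) (f : Perm (Fin n) → ℝ)
    (hf : MonoOn (X τ i v ∪ C τ i (v + 1)) f) :
    (∑ σ ∈ C τ i (v + 1), wt q σ * f σ) * (∑ σ ∈ X τ i v, wt q σ) ≤
      (∑ σ ∈ X τ i v, wt q σ * f σ) * (∑ σ ∈ C τ i (v + 1), wt q σ) := by
  have hwpos : ∀ σ : Perm (Fin n), 0 < wt q σ := fun σ => by unfold wt; positivity
  -- weight identity
  have hw : ∀ σ ∈ X τ i v, ∀ k ∈ (Finset.Ioi i).filter (fun k => v < σ k),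
      wt q (σ * swap i k) = wt q σ * rat q i v k (σ k) := by
    intro σ hσ k hk
    rw [mem_X] at hσ
    simp only [Finset.mem_filter, Finset.mem_Ioi] at hk
    have h := wt_swap q σ hk.1 (by rw [hσ.2]; exact hk.2)
    rw [h, hσ.2]
    simp [rat, hk.2]
  have hmem : ∀ σ ∈ X τ i v, ∀ k ∈ (Finset.Ioi i).filter (fun k => v < σ k),
      σ * swap i k ∈ C τ i (v + 1) := by
    intro σ hσ k hk
    rw [mem_X] at hσ
    simp only [Finset.mem_filter, Finset.mem_Ioi] at hk
    rw [mem_C]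
    refine ⟨fun j hj => ?_, ?_⟩
    · simp only [Perm.mul_apply]
      rw [swap_apply_of_ne_of_ne hj.ne (hj.trans hk.1).ne]
      exact hσ.1 j hj
    · simp only [Perm.mul_apply, swap_apply_left]
      exact hk.2
  have hS : ∀ σ : Perm (Fin n), S q i v σ =
      ∑ k ∈ (Finset.Ioi i).filter (fun k => v < σ k), rat q i v k (σ k) := by
    intro σ
    unfold S
    rw [Finset.sum_filter]
    apply Finset.sum_congr rfl
    intro k _
    by_cases h : v < σ k <;> simp [rat, h]
  have e1 : ∑ σ ∈ C τ i (v + 1), wt q σ = ∑ σ ∈ X τ i v, wt q σ * S q i v σ := by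
    rw [sum_Y τ i v hX]
    apply Finset.sum_congr rfl
    intro σ hσ
    rw [hS, Finset.mul_sum]
    apply Finset.sum_congr rfl
    intro k hk
    exact hw σ hσ k hk
  have e2 : ∑ σ ∈ C τ i (v + 1), wt q σ * f σ ≤ ∑ σ ∈ X τ i v, wt q σ * (f σ * S q i v σ) := by
    rw [sum_Y τ i v hX]
    apply Finset.sum_le_sum
    intro σ hσ
    rw [hS, Finset.mul_sum, Finset.mul_sum]
    apply Finset.sum_le_sum
    intro k hk
    have hfk : f (σ * swap i k) ≤ f σ := by
      have hk' := hk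
      simp only [Finset.mem_filter, Finset.mem_Ioi] at hk'
      apply hf σ (Finset.mem_union_left _ hσ) i k hk'.1
      · rw [(mem_X.mp hσ).2]; exact hk'.2
      · exact Finset.mem_union_right _ (hmem σ hσ k hk)
    have hr : 0 ≤ rat q i v k (σ k) := by
      unfold rat
      split_ifs <;> positivity
    rw [hw σ hσ k hk]
    have : 0 ≤ wt q σ * rat q i v k (σ k) := mul_nonneg (hwpos σ).le hr
    nlinarith [mul_le_mul_of_nonneg_left hfk this]
  have h3 := hPA f (fun σ => - S q i v σ) (hf.subset Finset.subset_union_left)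
    (S_anti hq0 hq1 τ i v)
  simp only [mul_neg, Finset.sum_neg_distrib, neg_mul] at h3
  have hx : 0 ≤ ∑ σ ∈ X τ i v, wt q σ := Finset.sum_nonneg (fun σ _ => (hwpos σ).le)
  rw [e1]
  calc (∑ σ ∈ C τ i (v + 1), wt q σ * f σ) * (∑ σ ∈ X τ i v, wt q σ)
      ≤ (∑ σ ∈ X τ i v, wt q σ * (f σ * S q i v σ)) * (∑ σ ∈ X τ i v, wt q σ) :=
        mul_le_mul_of_nonneg_right e2 hx
    _ ≤ (∑ σ ∈ X τ i v, wt q σ * f σ) * ∑ σ ∈ X τ i v, wt q σ * S q i v σ := by linarith

lemma X_eq_E {n : ℕ} {τ τ' : Perm (Fin n)} {i v : Fin n} (h : τ' ∈ X τ i v) :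
    X τ i v = E τ' (i + 1) := by
  rw [mem_X] at h
  ext σ
  rw [mem_X, mem_E]
  constructor
  · rintro ⟨h1, h2⟩ j hj
    rcases lt_or_eq_of_le (Nat.lt_succ_iff.mp hj) with hlt | heq
    · rw [h1 j hlt, h.1 j hlt]
    · have : j = i := Fin.ext heq
      subst this
      rw [h2, h.2]
  · intro h1
    refine ⟨fun j hj => ?_, ?_⟩
    · rw [h1 j (Nat.lt_succ_of_lt hj), h.1 j hj]
    · rw [h1 i (Nat.lt_succ_self _), h.2]

lemma C_eq_union {n : ℕ} (τ : Perm (Fin n)) (i v : Fin n) :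
    C τ i v = X τ i v ∪ C τ i (v + 1) := by
  ext σ
  rw [Finset.mem_union, mem_X, mem_C, mem_C]
  constructor
  · rintro ⟨h1, h2⟩
    rcases lt_or_eq_of_le h2 with h | h
    · exact Or.inr ⟨h1, h⟩
    · exact Or.inl ⟨h1, (Fin.ext h).symm⟩
  · rintro (⟨h1, h2⟩ | ⟨h1, h2⟩)
    · exact ⟨h1, by rw [h2]⟩
    · exact ⟨h1, by omega⟩

lemma disj {n : ℕ} (τ : Perm (Fin n)) (i v : Fin n) :
    Disjoint (X τ i v) (C τ i (v + 1)) := by
  rw [Finset.disjoint_left]
  intro σ h1 h2
  rw [mem_X] at h1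
  rw [mem_C] at h2
  have := h2.2
  rw [h1.2] at this
  omega

lemma PA_C {n : ℕ} {q : ℝ} (hq0 : 0 < q) (hq1 : q ≤ 1) (i : Fin n)
    (IH : ∀ τ : Perm (Fin n), PA (wt q) (E τ (i + 1))) (τ : Perm (Fin n)) :
    ∀ m v : ℕ, v + m = n → PA (wt q) (C τ i v) := by
  intro m
  induction m with
  | zero =>
    intro v hv
    have : C τ i v = ∅ := by
      ext σ
      rw [mem_C]
      simp only [Finset.notMem_empty, iff_false, not_and, not_le]
      intro _
      have := (σ i).isLt
      omega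
    rw [this]
    exact PA_empty _
  | succ m ih =>
    intro v hv
    have hvn : v < n := by omega
    have h := ih (v + 1) (by omega)
    have hu := C_eq_union τ i ⟨v, hvn⟩
    simp only at hu
    rw [hu]
    rcases (X τ i ⟨v, hvn⟩).eq_empty_or_nonempty with hX | hX
    · rw [hX, Finset.empty_union]
      exact h
    · obtain ⟨τ', hτ'⟩ := hX
      have hPX : PA (wt q) (X τ i ⟨v, hvn⟩) := by
        rw [X_eq_E hτ']
        exact IH τ'
      exact PA_union (fun σ => by unfold wt; positivity) (disj τ i ⟨v, hvn⟩) hPX h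
        (fun f hf => dom hq0 hq1 τ i ⟨v, hvn⟩ ⟨τ', hτ'⟩ hPX f hf)

lemma PA_E {n : ℕ} {q : ℝ} (hq0 : 0 < q) (hq1 : q ≤ 1) :
    ∀ m i : ℕ, i + m = n → ∀ τ : Perm (Fin n), PA (wt q) (E τ i) := by
  intro m
  induction m with
  | zero =>
    intro i hi τ
    have : E τ i = {τ} := by
      ext σ
      rw [mem_E, Finset.mem_singleton]
      constructor
      · intro h
        ext j
        rw [h j (by have := j.isLt; omega)]
      · rintro rfl j _
        rfl
    rw [this]
    exact PA_singleton _ _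
  | succ m ih =>
    intro i hi τ
    have hin : i < n := by omega
    have h := PA_C hq0 hq1 ⟨i, hin⟩ (fun τ => ih (i + 1) (by omega) τ) τ n 0 (by omega)
    have : C τ ⟨i, hin⟩ 0 = E τ i := by
      ext σ
      rw [mem_C, mem_E]
      simp [Fin.lt_def]
    rw [this] at h
    exact h

lemma PA_univ {n : ℕ} {q : ℝ} (hq0 : 0 < q) (hq1 : q ≤ 1) :
    PA (wt q) (Finset.univ : Finset (Perm (Fin n))) := by
  have h := PA_E (n := n) hq0 hq1 n 0 (by omega) 1
  have : E (1 : Perm (Fin n)) 0 = Finset.univ := by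
    ext σ
    rw [mem_E]
    simp
  rwa [this] at h

open Classical in
lemma mono_indicator {n : ℕ} {A : Set (Perm (Fin n))} (hA : IsStrongUpSet A) :
    MonoOn (Finset.univ : Finset (Perm (Fin n))) (fun σ => if σ ∈ A then (1 : ℝ) else 0) := by
  intro σ _ i j hij hlt _
  by_cases h : σ * swap i j ∈ A
  · have h2 : swap (σ i) (σ j) * (σ * swap i j) ∈ A := by
      apply hA _ h _ _ hlt
      have e1 : (σ * swap i j).symm (σ j) = i := by
        rw [Equiv.symm_apply_eq]; simp [Perm.mul_apply]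
      have e2 : (σ * swap i j).symm (σ i) = j := by
        rw [Equiv.symm_apply_eq]; simp [Perm.mul_apply]
      rw [e1, e2]
      exact hij
    have h3 : swap (σ i) (σ j) * (σ * swap i j) = σ := by
      rw [← mul_assoc, Equiv.swap_apply_apply]
      ext k
      simp
    rw [h3] at h2
    simp [h, h2]
  · by_cases h' : σ ∈ A <;> simp [h, h']

/-- For every `n` and every `0 < q ≤ 1` the measure `μ_{n,q}` on permutations of `n` elements,
with mass proportional to `q ^ (total displacement)`, is positively associated. -/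
theorem result : ∀ (n : ℕ) (q : ℝ), 0 < q → q ≤ 1 → PositivelyAssociated (mu n q) := by
  classical
  intro n q hq0 hq1 A B hA hB
  have h := PA_univ (n := n) hq0 hq1 _ _ (mono_indicator hA) (mono_indicator hB)
  have hmu : ∀ a : Perm (Fin n), mu n q a = wt q a / ∑ b : Perm (Fin n), wt q b := by
    intro a
    unfold mu wt
    simp only [totalDisplacement_eq]
  have hZ : 0 < ∑ b : Perm (Fin n), wt q b :=
    Finset.sum_pos (fun σ _ => by unfold wt; positivity) ⟨1, Finset.mem_univ _⟩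
  have hp : ∀ D : Set (Perm (Fin n)), prob (mu n q) D =
      (∑ a, wt q a * (if a ∈ D then (1 : ℝ) else 0)) / ∑ b : Perm (Fin n), wt q b := by
    intro D
    unfold prob
    rw [Finset.sum_filter, Finset.sum_div]
    apply Finset.sum_congr rfl
    intro a _
    by_cases ha : a ∈ D <;> simp [ha, hmu]
  have hAB : prob (mu n q) (A ∩ B) =
      (∑ a, wt q a * ((if a ∈ A then (1 : ℝ) else 0) * (if a ∈ B then (1 : ℝ) else 0))) /
        ∑ b : Perm (Fin n), wt q b := by
    rw [hp]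
    congr 1
    apply Finset.sum_congr rfl
    intro a _
    by_cases h1 : a ∈ A <;> by_cases h2 : a ∈ B <;> simp [h1, h2]
  rw [hAB, hp, hp, div_mul_div_comm, div_le_div_iff₀ (by positivity) hZ]
  have := mul_le_mul_of_nonneg_right h hZ.le
  linarith

end Pool.Agent.Results.MP_7e7ec7_co.TotalDisplacementPA
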